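import Pool.Agent.H98.EX.KTargets

/-!
# The ends of the skeleton (row ESX of the board exa)
-/

set_option autoImplicit false

open MeasureTheory ProbabilityTheory Filter Topology
open scoped ENNReal
open Pool.Agent.H95 Pool.Agent.H95.Cop Pool.Agent.H96.Cop
open Pool.Agent.H99.CE (BX w1 cq tb Gf Hf Kd ld mx ab eb TT FL EE lg Reg wq)
open Pool.Agent.H98.EX

namespace Pool.Agent.H31.EX

theorem zs (s : ℝ) (h0 : 0 < s) (N : ℕ) :
    ∑ i ∈ Finset.range N, ((i : ℝ) + 1) ^ (-(1 + s)) ≤ 1 + 1 / s := by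
  cases N with
  | zero =>
    rw [Finset.sum_range_zero]
    positivity
  | succ N =>
    rw [Finset.sum_range_succ']
    have h1 : (((0 : ℕ) : ℝ) + 1) ^ (-(1 + s)) = 1 := by
      rw [Nat.cast_zero, zero_add, Real.one_rpow]
    rw [h1, add_comm]
    apply add_le_add_right
    have h4 : AntitoneOn (fun x : ℝ => x ^ (-(1 + s))) (Set.Icc (1 : ℝ) (1 + N)) := by
      intro x hx y hy hxy
      exact Real.rpow_le_rpow_of_nonpos (by linarith [hx.1]) hxy (by linarith)
    have h5 := h4.sum_le_integral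
    have h6 : ∫ x in (1 : ℝ)..(1 + N), x ^ (-(1 + s)) = (1 - (1 + (N : ℝ)) ^ (-s)) / s := by
      rw [integral_rpow]
      · rw [show -(1 + s) + 1 = -s by ring, Real.one_rpow]
        field_simp
        ring
      · right
        refine ⟨by linarith, ?_⟩
        rw [Set.uIcc_of_le (by linarith [Nat.cast_nonneg (α := ℝ) N])]
        intro h
        linarith [h.1]
    rw [h6] at h5
    have h7 : ∑ i ∈ Finset.range N, (((i + 1 : ℕ) : ℝ) + 1) ^ (-(1 + s)) =
        ∑ i ∈ Finset.range N, ((1 : ℝ) + ((i + 1 : ℕ) : ℝ)) ^ (-(1 + s)) := by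
      refine Finset.sum_congr rfl fun i _ => ?_
      rw [add_comm]
    rw [h7]
    refine h5.trans ?_
    have h8 : 0 ≤ (1 + (N : ℝ)) ^ (-s) := by positivity
    exact div_le_div_of_nonneg_right (by linarith) h0.le

/-- the real coefficient of a link -/
noncomputable def gr (e α P η : ℝ) (M D : ℕ) : ℝ := e * P * wq α D * (if D ≤ M then 1 else η)

theorem wq_nonneg (α : ℝ) (D : ℕ) : 0 ≤ wq α D := Real.rpow_nonneg (Nat.cast_nonneg _) _

theorem gr_nonneg {e α P η : ℝ} (he : 0 ≤ e) (hP : 0 ≤ P) (hη : 0 ≤ η) (M D : ℕ) : 0 ≤ gr e α P η M D := by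
  unfold gr
  refine mul_nonneg (mul_nonneg (by positivity) (wq_nonneg α D)) ?_
  split_ifs
  · exact zero_le_one
  · exact hη

/-- the sum of the links to the big box `T` -/
noncomputable def SR (e α P η : ℝ) (M : ℕ) (T : Finset ℕ) (L q : ℕ) : ℝ :=
  ∑ D ∈ (Finset.Icc 1 L).filter (fun D => q + D ∈ T), gr e α P η M D

theorem SR_nonneg {e α P η : ℝ} (he : 0 ≤ e) (hP : 0 ≤ P) (hη : 0 ≤ η) (M : ℕ) (T : Finset ℕ) (L q : ℕ) :
    0 ≤ SR e α P η M T L q := Finset.sum_nonneg fun D _ => gr_nonneg he hP hη M D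

theorem eb_eq {e α t η P : ℝ} (ht : 0 < t) (hη : 0 ≤ η) (he : 0 ≤ e) (hP : 0 ≤ P) (M : ℕ) (T : Finset ℕ)
    (L q : ℕ) : eb (ENNReal.ofReal (e * P * t)) (Kd α t η M) T L q =
      (if q ∈ T then 1 else 0) + ENNReal.ofReal (SR e α P η M T L q) := by
  unfold eb
  congr 1
  rw [← Finset.sum_filter, Finset.mul_sum]
  unfold SR
  rw [ENNReal.ofReal_sum_of_nonneg fun D _ => gr_nonneg he hP hη M D]
  refine Finset.sum_congr rfl fun D _ => ?_
  unfold Kd gr
  rw [← ENNReal.ofReal_mul (by positivity)]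
  congr 1
  field_simp

theorem SR_le {e α η P : ℝ} (hα : 1 / 2 ≤ α) (hη : 0 ≤ η) (hη1 : η ≤ 1)
    (he : 0 ≤ e) (hP : 0 ≤ P) (M : ℕ) (T : Finset ℕ) (L q : ℕ) :
    SR e α P η M T L q ≤ 4 * e * P := by
  have h0 : 0 < α := by linarith
  have h1 : SR e α P η M T L q ≤ ∑ D ∈ Finset.Icc 1 L, gr e α P η M D := by
    unfold SR
    exact Finset.sum_le_sum_of_subset_of_nonneg (Finset.filter_subset _ _)
      fun D _ _ => gr_nonneg he hP hη M D
  have h2 : ∑ D ∈ Finset.Icc 1 L, gr e α P η M D ≤ e * P * ∑ D ∈ Finset.Icc 1 L, wq α D := by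
    rw [Finset.mul_sum]
    refine Finset.sum_le_sum fun D _ => ?_
    unfold gr
    refine mul_le_of_le_one_right (mul_nonneg (by positivity) (wq_nonneg α D)) ?_
    split_ifs
    · exact le_rfl
    · exact hη1
  have h3 : ∑ D ∈ Finset.Icc 1 L, wq α D ≤ 2 + 1 / α := by
    have h4 : ∑ D ∈ Finset.Icc 1 L, wq α D = ∑ i ∈ Finset.range L, wq α (i + 1) := by
      rw [Finset.range_eq_Ico, Finset.sum_Ico_add' (fun D => wq α D) 0 L 1]
      rfl
    rw [h4]
    cases L with
    | zero =>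
      rw [Finset.sum_range_zero]
      positivity
    | succ L =>
      rw [Finset.sum_range_succ']
      have h5 : wq α (0 + 1) = 1 := by
        unfold wq
        simp
      have h6 : ∑ i ∈ Finset.range L, wq α (i + 1 + 1) =
          ∑ i ∈ Finset.range L, ((i : ℝ) + 1) ^ (-(1 + α)) := by
        refine Finset.sum_congr rfl fun i _ => ?_
        unfold wq
        rw [Nat.add_sub_cancel, max_eq_left (by omega)]
        push_cast
        rfl
      rw [h5, h6]
      have := zs α h0 L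
      linarith
  have h7 : 1 / α ≤ 2 := by
    rw [div_le_iff₀ h0]
    linarith
  calc SR e α P η M T L q ≤ e * P * ∑ D ∈ Finset.Icc 1 L, wq α D := h1.trans h2
    _ ≤ e * P * 4 := mul_le_mul_of_nonneg_left (by linarith) (by positivity)
    _ = _ := by ring

theorem SR_far {e α η P : ℝ} (hα : 0 < α) (hη : 0 ≤ η) (he : 0 ≤ e) (hP : 0 ≤ P) {M : ℕ} (hM : 1 ≤ M)
    (q0 m L q : ℕ) (hm : 1 ≤ m) (hq : q < (q0 + 1) * M) :
    SR e α P η M (TT M (q0 + 1 + m)) L q ≤
      e * P * η * (m : ℝ) ^ (-(1 + α)) * (M : ℝ) ^ (-α) := by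
  have hm0 : (0 : ℝ) < m := by exact_mod_cast hm
  have hM0 : (0 : ℝ) < M := by exact_mod_cast hM
  have hM1 : (1 : ℝ) ≤ M := by exact_mod_cast hM
  have h1 : ∀ D ∈ (Finset.Icc 1 L).filter (fun D => q + D ∈ TT M (q0 + 1 + m)),
      gr e α P η M D ≤ e * P * η * ((m : ℝ) * M) ^ (-(1 + α)) := by
    intro D hD
    have h2 := (Finset.mem_filter.1 hD).2
    unfold TT at h2
    have h3 := (Finset.mem_Ico.1 h2).1
    have h4 : (q0 + 1 + m) * M = (q0 + 1) * M + m * M := by ring
    have h5 : m * M < D := by omega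
    have h6 : M ≤ m * M := Nat.le_mul_of_pos_left M hm
    unfold gr wq
    rw [if_neg (by omega), max_eq_left (by omega)]
    have h7 : ((D - 1 : ℕ) : ℝ) ^ (-(1 + α)) ≤ ((m : ℝ) * M) ^ (-(1 + α)) := by
      apply Real.rpow_le_rpow_of_nonpos (by positivity) _ (by linarith)
      have h8 : m * M ≤ D - 1 := by omega
      exact_mod_cast h8
    calc e * P * ((D - 1 : ℕ) : ℝ) ^ (-(1 + α)) * η =
          e * P * η * ((D - 1 : ℕ) : ℝ) ^ (-(1 + α)) := by ring
      _ ≤ _ := mul_le_mul_of_nonneg_left h7 (by positivity)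
  have hcard : ((Finset.Icc 1 L).filter (fun D => q + D ∈ TT M (q0 + 1 + m))).card ≤ M := by
    have h2 : ((Finset.Icc 1 L).filter (fun D => q + D ∈ TT M (q0 + 1 + m))).card ≤
        (TT M (q0 + 1 + m)).card := by
      apply Finset.card_le_card_of_injOn (fun D => q + D)
      · intro D hD
        exact (Finset.mem_filter.1 hD).2
      · intro D _ D' _ h
        exact Nat.add_left_cancel h
    have h3 : (TT M (q0 + 1 + m)).card = M := by
      unfold TT
      rw [Nat.card_Ico, Nat.add_mul (q0 + 1 + m) 1 M, Nat.one_mul, Nat.add_sub_cancel_left]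
    rwa [h3] at h2
  have hb0 : 0 ≤ e * P * η * ((m : ℝ) * M) ^ (-(1 + α)) := by positivity
  have h2 : SR e α P η M (TT M (q0 + 1 + m)) L q ≤
      (M : ℝ) * (e * P * η * ((m : ℝ) * M) ^ (-(1 + α))) := by
    unfold SR
    refine (Finset.sum_le_card_nsmul _ _ _ h1).trans ?_
    rw [nsmul_eq_mul]
    exact mul_le_mul_of_nonneg_right (by exact_mod_cast hcard) hb0
  refine h2.trans ?_
  have h3 : (M : ℝ) * (e * P * η * ((m : ℝ) * M) ^ (-(1 + α))) =
      e * P * η * (m : ℝ) ^ (-(1 + α)) * (M : ℝ) ^ (-α) := by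
    rw [Real.mul_rpow hm0.le hM0.le]
    have h4 : (M : ℝ) ^ (-α) = (M : ℝ) * (M : ℝ) ^ (-(1 + α)) := by
      have h5 := Real.rpow_add hM0 1 (-(1 + α))
      rw [Real.rpow_one] at h5
      rw [← h5]
      congr 1
      ring
    rw [h4]
    ring
  rw [h3]

theorem mx_le {θ : ℝ} (h0 : 0 < θ) (h1 : θ < 1) {y : ℝ≥0∞} {r : ℝ} (hr : 0 ≤ r) (hr1 : r ≤ 1)
    (hy : y ≤ ENNReal.ofReal r) : mx θ y ≤ ENNReal.ofReal (r ^ θ) := by
  unfold mx
  refine max_le (hy.trans ?_) ?_
  · apply ENNReal.ofReal_le_ofReal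
    exact Real.self_le_rpow_of_le_one hr hr1 h1.le
  · rw [← ENNReal.ofReal_rpow_of_nonneg hr h0.le]
    exact ENNReal.rpow_le_rpow hy h0.le

theorem mx_le' {θ : ℝ} (h0 : 0 < θ) (h1 : θ < 1) {y : ℝ≥0∞} {r : ℝ} (hr1 : 1 ≤ r)
    (hy : y ≤ ENNReal.ofReal r) : mx θ y ≤ ENNReal.ofReal r := by
  unfold mx
  refine max_le hy ?_
  calc y ^ θ ≤ (ENNReal.ofReal r) ^ θ := ENNReal.rpow_le_rpow hy h0.le
    _ = ENNReal.ofReal (r ^ θ) := ENNReal.ofReal_rpow_of_nonneg (by linarith) h0.le
    _ ≤ ENNReal.ofReal r := ENNReal.ofReal_le_ofReal (by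
        calc r ^ θ ≤ r ^ (1 : ℝ) := Real.rpow_le_rpow_of_exponent_le hr1 h1.le
          _ = r := Real.rpow_one r)

theorem pf_ESX : T_ESX := by
  intro α t θ s η P e M J q hα hα1 ht hθ0 hθ1 hs hs0 hη hη1 hP he hP1 hM
  have hM0 : (0 : ℝ) < M := by exact_mod_cast hM
  have hM1 : (1 : ℝ) ≤ M := by exact_mod_cast hM
  have hα0 : 0 < α := by linarith
  obtain ⟨q0, hq1, hq2⟩ : ∃ q0 : ℕ, q0 * M ≤ q ∧ q < (q0 + 1) * M := by
    refine ⟨q / M, Nat.div_mul_le_self q M, ?_⟩
    have h := Nat.lt_div_mul_add (a := q) (b := M) (by omega)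
    have h' : (q / M + 1) * M = q / M * M + M := by ring
    rw [h']
    exact h
  set C := (e * P * η) ^ θ * (M : ℝ) ^ (θ - 1) with hC
  have hC0 : 0 ≤ C := mul_nonneg (Real.rpow_nonneg (by positivity) θ) (Real.rpow_nonneg hM0.le _)
  set k1 := 4 * e * P with hk1
  have hk0 : 0 ≤ k1 := by positivity
  let B : ℕ → ℝ := fun j => if j < q0 then 0 else if j = q0 then 1 + k1 else
    if j = q0 + 1 then k1 ^ θ else C * ((j - q0 - 1 : ℕ) : ℝ) ^ (-(1 + s))
  have hB0 : ∀ j, 0 ≤ B j := by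
    intro j
    simp only [B]
    split_ifs
    · exact le_rfl
    · positivity
    · exact Real.rpow_nonneg hk0 θ
    · exact mul_nonneg hC0 (Real.rpow_nonneg (Nat.cast_nonneg _) _)
  have hBq : B q0 = 1 + k1 := by simp [B]
  have hBq1 : B (q0 + 1) = k1 ^ θ := by simp [B]
  have hterm : ∀ j, mx θ (eb (ENNReal.ofReal (e * P * t)) (Kd α t η M) (TT M j) (J * M) q) ≤
      ENNReal.ofReal (B j) := by
    intro j
    rw [eb_eq ht hη he.le hP]
    rcases lt_trichotomy j q0 with hj | hj | hj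
    · have h1 : (j + 1) * M ≤ q0 * M := Nat.mul_le_mul_right M hj
      have h2 : ¬ q ∈ TT M j := by
        unfold TT
        rw [Finset.mem_Ico]
        omega
      have h3 : SR e α P η M (TT M j) (J * M) q = 0 := by
        unfold SR
        apply Finset.sum_eq_zero
        intro D hD
        have h4 := (Finset.mem_filter.1 hD).2
        unfold TT at h4
        rw [Finset.mem_Ico] at h4
        omega
      rw [if_neg h2, h3]
      simp only [B]
      rw [if_pos hj, ENNReal.ofReal_zero, add_zero]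
      unfold mx
      rw [ENNReal.zero_rpow_of_pos hθ0, max_self]
    · rw [hj, hBq]
      apply mx_le' hθ0 hθ1 (by linarith)
      rw [ENNReal.ofReal_add zero_le_one hk0, ENNReal.ofReal_one]
      refine add_le_add ?_ (ENNReal.ofReal_le_ofReal (SR_le hα hη hη1 he.le hP M _ _ q))
      split_ifs
      · exact le_rfl
      · exact zero_le_one
    · have h1 : (q0 + 1) * M ≤ j * M := Nat.mul_le_mul_right M hj
      have h2 : ¬ q ∈ TT M j := by
        unfold TT
        rw [Finset.mem_Ico]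
        omega
      rw [if_neg h2, zero_add]
      simp only [B]
      rw [if_neg (by omega), if_neg (by omega)]
      by_cases hj1 : j = q0 + 1
      · rw [if_pos hj1]
        exact mx_le hθ0 hθ1 hk0 hP1
          (ENNReal.ofReal_le_ofReal (SR_le hα hη hη1 he.le hP M _ _ q))
      · rw [if_neg hj1]
        obtain ⟨m, rfl⟩ : ∃ m, j = q0 + 1 + m := ⟨j - (q0 + 1), by omega⟩
        have hm : 1 ≤ m := by omega
        have hm1 : (1 : ℝ) ≤ m := by exact_mod_cast hm
        have h3 : q0 + 1 + m - q0 - 1 = m := by omega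
        rw [h3]
        have h4 : e * P * η * (m : ℝ) ^ (-(1 + α)) * (M : ℝ) ^ (-α) ≤ 1 := by
          have h5 : (m : ℝ) ^ (-(1 + α)) ≤ 1 :=
            Real.rpow_le_one_of_one_le_of_nonpos hm1 (by linarith)
          have h5' : (M : ℝ) ^ (-α) ≤ 1 :=
            Real.rpow_le_one_of_one_le_of_nonpos hM1 (by linarith)
          have h7 : 0 ≤ e * P := by positivity
          have h6 : e * P ≤ 1 := by nlinarith
          have h8 : 0 ≤ (m : ℝ) ^ (-(1 + α)) := by positivity
          have h8' : 0 ≤ (M : ℝ) ^ (-α) := by positivity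
          exact mul_le_one₀ (mul_le_one₀ (mul_le_one₀ h6 hη hη1) h8 h5) h8' h5'
        have h9 := mx_le hθ0 hθ1 (by positivity) h4
          (ENNReal.ofReal_le_ofReal (SR_far hα0 hη he.le hP hM q0 m (J * M) q hm hq2))
        refine h9.trans (ENNReal.ofReal_le_ofReal ?_)
        rw [Real.mul_rpow (by positivity) (by positivity),
          Real.mul_rpow (by positivity) (by positivity), ← Real.rpow_mul (by positivity),
          ← Real.rpow_mul hM0.le]
        have h10 : -(1 + α) * θ = -(1 + s) := by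
          rw [← hs]
          ring
        have h11 : -α * θ ≤ θ - 1 := by
          have h12 : α * θ = 1 + s - θ := by linarith [hs]
          linarith
        have h13 : (M : ℝ) ^ (-α * θ) ≤ (M : ℝ) ^ (θ - 1) :=
          Real.rpow_le_rpow_of_exponent_le hM1 h11
        rw [h10]
        have h14 : 0 ≤ (e * P * η) ^ θ * (m : ℝ) ^ (-(1 + s)) := by positivity
        calc (e * P * η) ^ θ * (m : ℝ) ^ (-(1 + s)) * (M : ℝ) ^ (-α * θ)
            ≤ (e * P * η) ^ θ * (m : ℝ) ^ (-(1 + s)) * (M : ℝ) ^ (θ - 1) :=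
              mul_le_mul_of_nonneg_left h13 h14
          _ = C * (m : ℝ) ^ (-(1 + s)) := by rw [hC]; ring
  have hsum : ∑ j ∈ Finset.range J, B j ≤ 1 + k1 + k1 ^ θ + C * (1 + 1 / s) := by
    have h1 : ∑ j ∈ Finset.range J, B j ≤ ∑ j ∈ Finset.range (q0 + 1 + 1 + J), B j := by
      apply Finset.sum_le_sum_of_subset_of_nonneg
      · exact Finset.range_subset_range.2 (Nat.le_add_left _ _)
      · intro j _ _
        exact hB0 j
    refine h1.trans ?_
    rw [Finset.sum_range_add, Finset.sum_range_succ, Finset.sum_range_succ]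
    have h2 : ∑ j ∈ Finset.range q0, B j = 0 := by
      refine Finset.sum_eq_zero fun j hj => ?_
      simp only [B]
      rw [if_pos (Finset.mem_range.1 hj)]
    have h5 : ∑ i ∈ Finset.range J, B (q0 + 1 + 1 + i) =
        C * ∑ i ∈ Finset.range J, ((i : ℝ) + 1) ^ (-(1 + s)) := by
      rw [Finset.mul_sum]
      refine Finset.sum_congr rfl fun i _ => ?_
      simp only [B]
      rw [if_neg (by omega), if_neg (by omega), if_neg (by omega)]
      have h6 : q0 + 1 + 1 + i - q0 - 1 = i + 1 := by omega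
      rw [h6]
      push_cast
      rfl
    rw [h2, hBq, hBq1, h5]
    have h7 := mul_le_mul_of_nonneg_left (zs s hs0 J) hC0
    linarith
  calc ∑ j ∈ Finset.range J,
      mx θ (eb (ENNReal.ofReal (e * P * t)) (Kd α t η M) (TT M j) (J * M) q)
      ≤ ∑ j ∈ Finset.range J, ENNReal.ofReal (B j) := Finset.sum_le_sum fun j _ => hterm j
    _ = ENNReal.ofReal (∑ j ∈ Finset.range J, B j) :=
        (ENNReal.ofReal_sum_of_nonneg fun j _ => hB0 j).symm
    _ ≤ _ := by
        apply ENNReal.ofReal_le_ofReal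
        refine hsum.trans (le_of_eq ?_)
        rw [hC]
        ring

end Pool.Agent.H31.EX
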