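import Pool.Agent.H98.EX.WTargets

/-!
# The recursion of the negative moments at `0` (row HF0 of the board exa)
-/

set_option autoImplicit false

open MeasureTheory ProbabilityTheory Filter Topology
open Pool.Agent.H95 Pool.Agent.H95.Cop
open Pool.Agent.H55.CG (Mo)
open Pool.Agent.H98.EX

namespace Pool.Agent.H31.EX

namespace HF0aux

theorem meas_H (a b : ℕ) : Measurable (fun y : ℕ → ℝ => H y a b) := by
  unfold H
  fun_prop

theorem H_succ (y : ℕ → ℝ) (m : ℕ) : H y 0 (m + 1) = y 0 + H (shift 1 y) 0 m := by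
  unfold H
  rw [← Finset.range_eq_Ico, ← Finset.range_eq_Ico, Finset.sum_range_succ', add_comm]
  rfl

variable (ϱ : Measure ℝ) [IsProbabilityMeasure ϱ]

theorem mp_eval (i : ℕ) : MeasurePreserving (fun y : ℕ → ℝ => y i) (iid ϱ) ϱ :=
  measurePreserving_eval_infinitePi (fun _ : ℕ => ϱ) i

theorem dep_first (F : ℝ → ℝ) : DepLt 1 (fun y : ℕ → ℝ => F (y 0)) := by
  intro x x' h
  show F (x 0) = F (x' 0)
  rw [h 0 (by omega)]

theorem expH (hϱ : ∀ t : ℝ, Integrable (fun z => Real.exp (t * z)) ϱ) (t : ℝ) : ∀ m : ℕ,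
    Integrable (fun y : ℕ → ℝ => Real.exp (t * H y 0 m)) (iid ϱ) ∧
    ∫ y : ℕ → ℝ, Real.exp (t * H y 0 m) ∂(iid ϱ) = Mo ϱ t ^ m := by
  intro m
  induction m with
  | zero =>
    have h : ∀ y : ℕ → ℝ, Real.exp (t * H y 0 0) = 1 := by
      intro y
      unfold H
      simp
    simp_rw [h]
    refine ⟨integrable_const 1, ?_⟩
    simp
  | succ m ih =>
    have h : ∀ y : ℕ → ℝ, Real.exp (t * H y 0 (m + 1)) =
        Real.exp (t * y 0) * Real.exp (t * H (shift 1 y) 0 m) := by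
      intro y
      rw [H_succ, mul_add, Real.exp_add]
    simp_rw [h]
    have h0 : Integrable (fun y : ℕ → ℝ => Real.exp (t * y 0)) (iid ϱ) :=
      (mp_eval ϱ 0).integrable_comp_of_integrable (hϱ t)
    have hd : DepLt 1 (fun y : ℕ → ℝ => Real.exp (t * y 0)) := dep_first fun z => Real.exp (t * z)
    have h0' : ∫ y : ℕ → ℝ, Real.exp (t * y 0) ∂(iid ϱ) = Mo ϱ t := by
      unfold Mo
      have := integral_map (μ := iid ϱ) (mp_eval ϱ 0).measurable.aemeasurable
        (f := fun z => Real.exp (t * z)) (by rw [(mp_eval ϱ 0).map_eq]; exact (hϱ t).1)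
      rw [(mp_eval ϱ 0).map_eq] at this
      exact this.symm
    refine ⟨integrable_mul_shift ϱ hd h0 ih.1, ?_⟩
    rw [integral_mul_shift ϱ hd h0.1 ih.1.1, h0', ih.2, pow_succ']

theorem VR_nonneg (n : ℕ) (y : ℕ → ℝ) : 0 ≤ VR n y := by
  unfold VR
  exact Finset.sum_nonneg fun i _ => (Real.exp_pos _).le

theorem VR_meas (n : ℕ) : Measurable (VR n) := by
  unfold VR
  refine Finset.measurable_sum _ fun i _ => ?_
  exact ((meas_H 0 (i + 1)).neg).exp

theorem VR_int (hϱ : ∀ t : ℝ, Integrable (fun z => Real.exp (t * z)) ϱ) (n : ℕ) :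
    Integrable (VR n) (iid ϱ) := by
  have h : VR n = fun y => ∑ i ∈ Finset.range n, Real.exp ((-1) * H y 0 (i + 1)) := by
    funext y
    unfold VR
    refine Finset.sum_congr rfl fun i _ => ?_
    rw [neg_one_mul]
  rw [h]
  exact integrable_finsetSum _ fun i _ => (expH ϱ hϱ (-1) (i + 1)).1

theorem VR_succ' (n : ℕ) (y : ℕ → ℝ) :
    VR (n + 1) y = Real.exp (-y 0) * (1 + VR n (shift 1 y)) := by
  unfold VR
  rw [Finset.sum_range_succ', add_comm, mul_add, Finset.mul_sum]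
  congr 1
  · rw [H_succ]
    unfold H
    simp
  · refine Finset.sum_congr rfl fun i _ => ?_
    rw [H_succ, ← Real.exp_add]
    congr 1
    ring

theorem VR_succ (n : ℕ) (y : ℕ → ℝ) : VR (n + 1) y = VR n y + Real.exp (-H y 0 (n + 1)) := by
  unfold VR
  rw [Finset.sum_range_succ]

theorem L_int (hϱ : ∀ t : ℝ, Integrable (fun z => Real.exp (t * z)) ϱ) (n : ℕ) :
    Integrable (fun y => Real.log (1 + VR n y)) (iid ϱ) := by
  refine (VR_int ϱ hϱ n).mono' ?_ ?_
  · exact ((VR_meas n).const_add 1).log.aestronglyMeasurable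
  · refine Filter.Eventually.of_forall fun y => ?_
    have h0 := VR_nonneg n y
    rw [Real.norm_of_nonneg (Real.log_nonneg (by linarith))]
    have := Real.log_le_sub_one_of_pos (show 0 < 1 + VR n y by linarith)
    linarith

omit [IsProbabilityMeasure ϱ] in
theorem id_int (hϱ : ∀ t : ℝ, Integrable (fun z => Real.exp (t * z)) ϱ) :
    Integrable (fun z : ℝ => z) ϱ := by
  refine ((hϱ 1).add (hϱ (-1))).mono' measurable_id.aestronglyMeasurable ?_
  refine Filter.Eventually.of_forall fun z => ?_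
  simp only [Pi.add_apply]
  rw [Real.norm_eq_abs, abs_le]
  have h1 := Real.add_one_le_exp (1 * z)
  have h2 := Real.add_one_le_exp ((-1) * z)
  have h3 := Real.exp_pos (1 * z)
  have h4 := Real.exp_pos ((-1) * z)
  constructor <;> linarith

theorem y0_int (hϱ : ∀ t : ℝ, Integrable (fun z => Real.exp (t * z)) ϱ) :
    Integrable (fun y : ℕ → ℝ => y 0) (iid ϱ) ∧ ∫ y : ℕ → ℝ, y 0 ∂(iid ϱ) = ∫ z, z ∂ϱ := by
  refine ⟨(mp_eval ϱ 0).integrable_comp_of_integrable (id_int ϱ hϱ), ?_⟩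
  have := integral_map (μ := iid ϱ) (mp_eval ϱ 0).measurable.aemeasurable
    (f := fun z : ℝ => z) (by rw [(mp_eval ϱ 0).map_eq]; exact (id_int ϱ hϱ).1)
  rw [(mp_eval ϱ 0).map_eq] at this
  exact this.symm

/-- the pointwise identity and the two bounds of the logarithm -/
theorem pw (n : ℕ) (y : ℕ → ℝ) :
    (1 + VR (n + 1) y)⁻¹ ≤ Real.log (1 + VR (n + 1) y) + y 0 - Real.log (1 + VR n (shift 1 y)) ∧
    Real.log (1 + VR (n + 1) y) + y 0 - Real.log (1 + VR n (shift 1 y)) ≤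
      Real.exp (1 * y 0) * (1 + VR n (shift 1 y))⁻¹ := by
  have h1 := VR_nonneg n (shift 1 y)
  have hW : 0 < VR (n + 1) y := by
    rw [VR_succ']
    exact mul_pos (Real.exp_pos _) (by linarith)
  have hV : 0 < 1 + VR (n + 1) y := by linarith
  have h2 : Real.log (VR (n + 1) y) = -y 0 + Real.log (1 + VR n (shift 1 y)) := by
    rw [VR_succ', Real.log_mul (Real.exp_pos _).ne' (by linarith), Real.log_exp]
  have h3 : Real.log (1 + VR (n + 1) y) + y 0 - Real.log (1 + VR n (shift 1 y)) =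
      Real.log ((1 + VR (n + 1) y) / VR (n + 1) y) := by
    rw [Real.log_div hV.ne' hW.ne', h2]
    ring
  rw [h3]
  have hx : 0 < (1 + VR (n + 1) y) / VR (n + 1) y := div_pos hV hW
  constructor
  · have h4 := Real.one_sub_inv_le_log_of_pos hx
    refine le_trans (le_of_eq ?_) h4
    rw [inv_div]
    field_simp
    ring
  · have h4 := Real.log_le_sub_one_of_pos hx
    refine h4.trans (le_of_eq ?_)
    have h5 : (1 + VR (n + 1) y) / VR (n + 1) y - 1 = (VR (n + 1) y)⁻¹ := by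
      field_simp
      ring
    rw [h5, VR_succ', mul_inv, ← Real.exp_neg, neg_neg, one_mul]

theorem log_u {b u : ℝ} (hb : 0 < b) (hu : 0 < u) (hu1 : u ≤ 1) :
    Real.log (1 + b) ≤ b ^ u / u := by
  rw [le_div_iff₀ hu]
  have h1 : (1 + b) ^ u ≤ 1 + b ^ u := by
    have h := NNReal.rpow_add_le_add_rpow (1 : NNReal) ⟨b, hb.le⟩ hu.le hu1
    have h' : (((1 : NNReal) + ⟨b, hb.le⟩ : NNReal) : ℝ) ^ u ≤
        ((1 : NNReal) : ℝ) ^ u + ((⟨b, hb.le⟩ : NNReal) : ℝ) ^ u := by exact_mod_cast h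
    rw [NNReal.coe_add, NNReal.coe_one, Real.one_rpow] at h'
    exact h'
  have h2 : Real.log ((1 + b) ^ u) = u * Real.log (1 + b) := Real.log_rpow (by linarith) u
  have h3 : Real.log ((1 + b) ^ u) ≤ Real.log (1 + b ^ u) :=
    Real.log_le_log (Real.rpow_pos_of_pos (by linarith) u) h1
  have h4 := Real.log_le_sub_one_of_pos (show 0 < 1 + b ^ u by positivity)
  rw [mul_comm, ← h2]
  linarith

theorem dl (n : ℕ) (y : ℕ → ℝ) {u : ℝ} (hu : 0 < u) (hu1 : u ≤ 1) :
    0 ≤ Real.log (1 + VR (n + 1) y) - Real.log (1 + VR n y) ∧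
    Real.log (1 + VR (n + 1) y) - Real.log (1 + VR n y) ≤
      Real.exp ((-u) * H y 0 (n + 1)) / u := by
  have h0 := VR_nonneg n y
  have hb := Real.exp_pos (-H y 0 (n + 1))
  have h1 : 1 + VR (n + 1) y ≤ (1 + VR n y) * (1 + Real.exp (-H y 0 (n + 1))) := by
    rw [VR_succ]
    nlinarith [mul_nonneg h0 hb.le]
  constructor
  · have : Real.log (1 + VR n y) ≤ Real.log (1 + VR (n + 1) y) := by
      apply Real.log_le_log (by linarith)
      rw [VR_succ]
      linarith
    linarith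
  · have h2 : Real.log (1 + VR (n + 1) y) ≤
        Real.log (1 + VR n y) + Real.log (1 + Real.exp (-H y 0 (n + 1))) := by
      rw [← Real.log_mul (by linarith) (by linarith)]
      apply Real.log_le_log _ h1
      have := VR_nonneg (n + 1) y
      linarith
    have h3 := log_u hb hu hu1
    rw [← Real.exp_mul] at h3
    have h4 : -H y 0 (n + 1) * u = (-u) * H y 0 (n + 1) := by ring
    rw [h4] at h3
    linarith

end HF0aux

open HF0aux in
theorem pf_HF0 (_hWBA : T_WBA) : T_HF0 := by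
  intro ϱ hp hϱ u n hu hu1
  have hL1 := L_int ϱ hϱ (n + 1)
  have hL0 := L_int ϱ hϱ n
  have hLs : Integrable (fun y => Real.log (1 + VR n (shift 1 y))) (iid ϱ) :=
    (measurePreserving_shift ϱ 1).integrable_comp_of_integrable hL0
  have hLse : ∫ y, Real.log (1 + VR n (shift 1 y)) ∂(iid ϱ) =
      ∫ y, Real.log (1 + VR n y) ∂(iid ϱ) := by
    have := integral_map (μ := iid ϱ) (measurePreserving_shift ϱ 1).measurable.aemeasurable
      (f := fun y => Real.log (1 + VR n y))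
      (by rw [(measurePreserving_shift ϱ 1).map_eq]; exact hL0.1)
    rw [(measurePreserving_shift ϱ 1).map_eq] at this
    exact this.symm
  obtain ⟨hy, hye⟩ := y0_int ϱ hϱ
  have hM : Integrable (fun y => Real.log (1 + VR (n + 1) y) + y 0 -
      Real.log (1 + VR n (shift 1 y))) (iid ϱ) := (hL1.add hy).sub hLs
  have hMe : ∫ y, (Real.log (1 + VR (n + 1) y) + y 0 - Real.log (1 + VR n (shift 1 y))) ∂(iid ϱ) =
      (∫ z, z ∂ϱ) + ∫ y, (Real.log (1 + VR (n + 1) y) - Real.log (1 + VR n y)) ∂(iid ϱ) := by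
    have e1 : ∫ y, (Real.log (1 + VR (n + 1) y) + y 0 - Real.log (1 + VR n (shift 1 y)))
        ∂(iid ϱ) = ∫ y, (Real.log (1 + VR (n + 1) y) + y 0) ∂(iid ϱ) -
          ∫ y, Real.log (1 + VR n (shift 1 y)) ∂(iid ϱ) := integral_sub (hL1.add hy) hLs
    have e2 : ∫ y, (Real.log (1 + VR (n + 1) y) + y 0) ∂(iid ϱ) =
        ∫ y, Real.log (1 + VR (n + 1) y) ∂(iid ϱ) + ∫ y : ℕ → ℝ, y 0 ∂(iid ϱ) :=
      integral_add hL1 hy
    have e3 : ∫ y, (Real.log (1 + VR (n + 1) y) - Real.log (1 + VR n y)) ∂(iid ϱ) =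
        ∫ y, Real.log (1 + VR (n + 1) y) ∂(iid ϱ) - ∫ y, Real.log (1 + VR n y) ∂(iid ϱ) :=
      integral_sub hL1 hL0
    rw [e1, e2, e3, hLse, hye]
    ring
  have inv_int : ∀ m : ℕ, Integrable (fun y => (1 + VR m y)⁻¹) (iid ϱ) := by
    intro m
    refine (integrable_const (1 : ℝ)).mono' ?_ ?_
    · exact ((VR_meas m).const_add 1).inv.aestronglyMeasurable
    · refine Filter.Eventually.of_forall fun y => ?_
      have h0 := VR_nonneg m y
      rw [Real.norm_of_nonneg (by positivity)]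
      exact inv_le_one_of_one_le₀ (by linarith)
  have hhe : ∀ m : ℕ, hh ϱ m 1 = ∫ y, (1 + VR m y)⁻¹ ∂(iid ϱ) := by
    intro m
    unfold hh
    simp_rw [Real.rpow_neg_one]
  constructor
  · rw [hhe]
    have h1 : ∫ y, (1 + VR (n + 1) y)⁻¹ ∂(iid ϱ) ≤ ∫ y, (Real.log (1 + VR (n + 1) y) + y 0 -
        Real.log (1 + VR n (shift 1 y))) ∂(iid ϱ) :=
      integral_mono (inv_int (n + 1)) hM fun y => (pw n y).1
    rw [hMe] at h1
    obtain ⟨hE, hEe⟩ := expH ϱ hϱ (-u) (n + 1)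
    have h2 : ∫ y, (Real.log (1 + VR (n + 1) y) - Real.log (1 + VR n y)) ∂(iid ϱ) ≤
        ∫ y, Real.exp ((-u) * H y 0 (n + 1)) / u ∂(iid ϱ) :=
      integral_mono (hL1.sub hL0) (hE.div_const u) fun y => (dl n y hu hu1).2
    rw [integral_div, hEe] at h2
    linarith
  · rw [hhe]
    have h0 : 0 ≤ ∫ y, (Real.log (1 + VR (n + 1) y) - Real.log (1 + VR n y)) ∂(iid ϱ) :=
      integral_nonneg fun y => (dl n y hu hu1).1
    have hE : Integrable (fun y : ℕ → ℝ => Real.exp (1 * y 0)) (iid ϱ) :=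
      (mp_eval ϱ 0).integrable_comp_of_integrable (hϱ 1)
    have hEe : ∫ y : ℕ → ℝ, Real.exp (1 * y 0) ∂(iid ϱ) = Mo ϱ 1 := by
      unfold Mo
      have := integral_map (μ := iid ϱ) (mp_eval ϱ 0).measurable.aemeasurable
        (f := fun z => Real.exp (1 * z)) (by rw [(mp_eval ϱ 0).map_eq]; exact (hϱ 1).1)
      rw [(mp_eval ϱ 0).map_eq] at this
      exact this.symm
    have hd : DepLt 1 (fun y : ℕ → ℝ => Real.exp (1 * y 0)) := dep_first fun z => Real.exp (1 * z)
    have h1 : ∫ y, (Real.log (1 + VR (n + 1) y) + y 0 -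
        Real.log (1 + VR n (shift 1 y))) ∂(iid ϱ) ≤
        ∫ y, Real.exp (1 * y 0) * (1 + VR n (shift 1 y))⁻¹ ∂(iid ϱ) :=
      integral_mono hM (integrable_mul_shift ϱ hd hE (inv_int n)) fun y => (pw n y).2
    have h2 := integral_mul_shift ϱ hd hE.1 (inv_int n).1
    rw [h2, hEe, hMe] at h1
    linarith

end Pool.Agent.H31.EX
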